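import Pool.Agent.Helper37.PF.Main

/-!
# Exceptions among three generalisations of primitivity (MP_13dc8a_al): the answer

`MulAction.IsMultiplyPretransitive`, `MulAction.IsMultiplyPreprimitive` and
`MulAction.IsPreprimitive G (Set.powersetCard X t)` are `t`-transitivity, `t`-primitivity and
`t`-set primitivity; `SteinerPrimitive` and the four kinds of exceptions `ExcA`, `ExcB`, `ExcC`,
`ExcD` are defined in `Pool/Agent/Helper37/Prim/Defs.lean`, the list `Listed` of the finite
`2`-transitive permutation groups and the lists `AnsA`, `AnsB`, `AnsC` of the exceptions in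
`Pool/Agent/Helper37/PF/Defs.lean`.
-/

namespace Pool.Agent.Results.MP_13dc8a_al.FullAnswer

open MulAction Equiv
open Pool.Agent.Helper37.Prim Pool.Agent.Helper37.PF

/-- The exceptions. Let `G` be a `t`-transitive permutation group on the finite set `X`,
`2 ≤ t ≤ |X|`, in the list `Listed` of the finite `2`-transitive permutation groups. Then `G` is
* of type (a) (`t`-primitive but not `t`-set primitive) iff `AnsA G t`,
* of type (b) (`t`-set primitive but not `t`-primitive) iff `AnsB G t`,
* of type (c) (`t`-Steiner primitive but not `t`-primitive) iff `AnsB G t` or `AnsC G t`,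
* of type (d) (`t`-Steiner primitive but not `t`-set primitive) iff `AnsA G t` or `AnsC G t`. -/
theorem result (X : Type) [Fintype X] [DecidableEq X] (G : Subgroup (Perm X)) (t : ℕ)
    (ht : 2 ≤ t) (htn : t ≤ Nat.card X) (hG : IsMultiplyPretransitive G X t) (hL : Listed G) :
    (ExcA G X t ↔ AnsA G t) ∧ (ExcB G X t ↔ AnsB G t) ∧
    (ExcC G X t ↔ AnsB G t ∨ AnsC G t) ∧ (ExcD G X t ↔ AnsA G t ∨ AnsC G t) :=
  answer X G t ht htn hG hL

end Pool.Agent.Results.MP_13dc8a_al.FullAnswer
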